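import Pool.Agent.Lib.MP_5ca2c7_co.GapMain

namespace Pool.Agent.Results.MP_5ca2c7_co.Kite

open Pool.Agent.Lib.MP_5ca2c7_co

theorem result : ∀ n : ℕ, 2 ≤ n → ∃ r s : ℕ, 1 ≤ r ∧ 2 * r + s = n ∧
    ∀ (V : Type) [Fintype V] (G : SimpleGraph V), Fintype.card V = n → G.Connected →
      gap (kite r s) ≤ gap G := gap_main

end Pool.Agent.Results.MP_5ca2c7_co.Kite
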